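import Pool.Agent.Y377.IR.Stm

/-!
# The field of a coset (helper529)
-/

set_option autoImplicit false

namespace Pool.Agent.Y529.IR

open Pool.Agent.Y377.EL Pool.Agent.Y377.IL Pool.Agent.Y377.IR

variable {H : Type} [Group H]

theorem tr_tr (a b : H) (f : H → ℂ) : tr a (tr b f) = tr (b * a) f := by
  funext h
  change f (b * (a * h)) = f (b * a * h)
  rw [mul_assoc]

theorem tr_one' (f : H → ℂ) : tr 1 f = f := by
  funext h
  change f (1 * h) = f h
  rw [one_mul]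

/-- translation as an automorphism of the ring -/
def trEquiv (R : Subalgebra ℂ (H → ℂ)) (hR : TStab R) (g : H) : R ≃ₐ[ℂ] R where
  toFun f := ⟨tr g f, hR g f f.2⟩
  invFun f := ⟨tr g⁻¹ f, hR g⁻¹ f f.2⟩
  left_inv f := by
    apply Subtype.ext
    change tr g⁻¹ (tr g f) = f
    rw [tr_tr, mul_inv_cancel, tr_one']
  right_inv f := by
    apply Subtype.ext
    change tr g (tr g⁻¹ f) = f
    rw [tr_tr, inv_mul_cancel, tr_one']
  map_mul' f f' := rfl
  map_add' f f' := rfl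
  commutes' c := rfl

/-- the functions which vanish on a coset -/
def van (R : Subalgebra ℂ (H → ℂ)) (N : Subgroup H) (a : H) : Ideal R where
  carrier := {f | ∀ g ∈ N, (f : H → ℂ) (g * a) = 0}
  add_mem' := by
    intro f f' hf hf' g hg
    change (f : H → ℂ) (g * a) + (f' : H → ℂ) (g * a) = 0
    rw [hf g hg, hf' g hg, add_zero]
  zero_mem' := fun g _ => rfl
  smul_mem' := by
    intro c f hf g hg
    change (c : H → ℂ) (g * a) * (f : H → ℂ) (g * a) = 0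
    rw [hf g hg, mul_zero]

theorem mem_van {R : Subalgebra ℂ (H → ℂ)} {N : Subgroup H} {a : H} {f : R} :
    f ∈ van R N a ↔ ∀ g ∈ N, (f : H → ℂ) (g * a) = 0 := Iff.rfl

theorem van_tr {R : Subalgebra ℂ (H → ℂ)} (hR : TStab R) {N : Subgroup H} {a g : H} (hg : g ∈ N)
    (f : R) : trEquiv R hR g f ∈ van R N a ↔ f ∈ van R N a := by
  rw [mem_van, mem_van]
  constructor
  · intro h g' hg'
    have h1 := h (g⁻¹ * g') (N.mul_mem (N.inv_mem hg) hg')
    change (f : H → ℂ) (g * (g⁻¹ * g' * a)) = 0 at h1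
    have e : g * (g⁻¹ * g' * a) = g' * a := by group
    rwa [e] at h1
  · intro h g' hg'
    change (f : H → ℂ) (g * (g' * a)) = 0
    rw [← mul_assoc]
    exact h _ (N.mul_mem hg hg')

section aux

variable {R : Subalgebra ℂ (H → ℂ)} {N : Subgroup H} (hR : TStab R) {a : H} {A : Type} [CommRing A]
  [Algebra ℂ A] {π : R →ₐ[ℂ] A} (hπ : Function.Surjective π)
  (hk : ∀ f : R, π f = 0 ↔ f ∈ van R N a)

include hk in
theorem key {g : H} (hg : g ∈ N) {f f' : R} (h : π f = π f') :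
    π (trEquiv R hR g f) = π (trEquiv R hR g f') := by
  rw [← sub_eq_zero, ← map_sub, ← map_sub, hk, van_tr hR hg, ← hk, map_sub, h, sub_self]

/-- the translation on the quotient -/
noncomputable def sg (g : H) (p : A) : A := π (trEquiv R hR g (Function.surjInv hπ p))

include hk in
theorem sg_apply {g : H} (hg : g ∈ N) (f : R) : sg hR hπ g (π f) = π (trEquiv R hR g f) :=
  key hR hk hg (Function.surjInv_eq hπ (π f))

/-- the translation on the quotient -/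
noncomputable def sgEquiv {g : H} (hg : g ∈ N) : A ≃ₐ[ℂ] A where
  toFun := sg hR hπ g
  invFun := sg hR hπ g⁻¹
  left_inv p := by
    obtain ⟨f, rfl⟩ := hπ p
    rw [sg_apply hR hπ hk hg, sg_apply hR hπ hk (N.inv_mem hg)]
    congr 1
    apply Subtype.ext
    change tr g⁻¹ (tr g f) = f
    rw [tr_tr, mul_inv_cancel, tr_one']
  right_inv p := by
    obtain ⟨f, rfl⟩ := hπ p
    rw [sg_apply hR hπ hk (N.inv_mem hg), sg_apply hR hπ hk hg]
    congr 1
    apply Subtype.ext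
    change tr g (tr g⁻¹ f) = f
    rw [tr_tr, inv_mul_cancel, tr_one']
  map_mul' p q := by
    obtain ⟨f, rfl⟩ := hπ p
    obtain ⟨f', rfl⟩ := hπ q
    rw [← map_mul, sg_apply hR hπ hk hg, sg_apply hR hπ hk hg, sg_apply hR hπ hk hg, map_mul,
      map_mul]
  map_add' p q := by
    obtain ⟨f, rfl⟩ := hπ p
    obtain ⟨f', rfl⟩ := hπ q
    rw [← map_add, sg_apply hR hπ hk hg, sg_apply hR hπ hk hg, sg_apply hR hπ hk hg, map_add,
      map_add]
  commutes' c := by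
    rw [← π.commutes c, sg_apply hR hπ hk hg, AlgEquiv.commutes]

theorem sgEquiv_apply {g : H} (hg : g ∈ N) (f : R) :
    sgEquiv hR hπ hk hg (π f) = π (trEquiv R hR g f) := sg_apply hR hπ hk hg f

include hR hπ hk in
theorem ka_aux [Nontrivial A] (K : Type) [Field K] [Algebra ℂ K] [Algebra A K]
    [IsScalarTower ℂ A K] [IsFractionRing A K] :
    ∃ (Γ : Subgroup (K ≃ₐ[ℂ] K)) (ρ : R →ₐ[ℂ] K),
      (∀ f : R, ρ f = 0 ↔ ∀ g ∈ N, (f : H → ℂ) (g * a) = 0) ∧ (∀ x : K, x ∈ frac ρ.range) ∧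
      (∀ γ ∈ Γ, ∃ g ∈ N, ∀ f f' : R, (f' : H → ℂ) = tr g f → γ (ρ f) = ρ f') ∧
      ∀ g ∈ N, ∃ γ ∈ Γ, ∀ f f' : R, (f' : H → ℂ) = tr g f → γ (ρ f) = ρ f' := by
  let ρ : R →ₐ[ℂ] K := (IsScalarTower.toAlgHom ℂ A K).comp π
  have hρ : ∀ f : R, ρ f = algebraMap A K (π f) := fun f => rfl
  have hinj : Function.Injective (algebraMap A K) := IsFractionRing.injective _ K
  have h0 : ∀ p : A, algebraMap A K p = 0 ↔ p = 0 := fun p => map_eq_zero_iff _ hinj
  let Γ : Subgroup (K ≃ₐ[ℂ] K) :=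
    { carrier := {γ | ∃ g ∈ N, ∀ f f' : R, (f' : H → ℂ) = tr g f → γ (ρ f) = ρ f'}
      one_mem' := ⟨1, N.one_mem, fun f f' h => by
        have : f' = f := Subtype.ext (by rw [h, tr_one'])
        rw [this]
        rfl⟩
      mul_mem' := by
        rintro γ₁ γ₂ ⟨g₁, hg₁, h₁⟩ ⟨g₂, hg₂, h₂⟩
        refine ⟨g₂ * g₁, N.mul_mem hg₂ hg₁, fun f f' h => ?_⟩
        change γ₁ (γ₂ (ρ f)) = ρ f'
        rw [h₂ f ⟨tr g₂ f, hR g₂ f f.2⟩ rfl]
        refine h₁ _ _ ?_
        rw [h]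
        exact (tr_tr g₁ g₂ f).symm
      inv_mem' := by
        rintro γ ⟨g, hg, h⟩
        refine ⟨g⁻¹, N.inv_mem hg, fun f f' hf => ?_⟩
        have e : γ (ρ f') = ρ f := by
          refine h f' f ?_
          rw [hf, tr_tr, inv_mul_cancel, tr_one']
        rw [← e]
        exact γ.symm_apply_apply _ }
  refine ⟨Γ, ρ, ?_, ?_, ?_, ?_⟩
  · intro f
    rw [hρ, h0, hk]
    exact Iff.rfl
  · intro x
    obtain ⟨p, q, hq, rfl⟩ := IsFractionRing.div_surjective (A := A) x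
    obtain ⟨f, rfl⟩ := hπ p
    obtain ⟨f', rfl⟩ := hπ q
    have hne : ρ f' ≠ 0 := by
      intro h
      rw [hρ] at h
      exact (IsFractionRing.to_map_ne_zero_of_mem_nonZeroDivisors hq) h
    refine ⟨ρ f', ⟨f', rfl⟩, hne, ?_⟩
    rw [← hρ, ← hρ, mul_div_cancel₀ _ hne]
    exact ⟨f, rfl⟩
  · intro γ hγ
    exact hγ
  · intro g hg
    let γ : K ≃ₐ[ℂ] K := IsFractionRing.algEquivOfAlgEquiv (sgEquiv hR hπ hk hg)
    have hγ : ∀ f f' : R, (f' : H → ℂ) = tr g f → γ (ρ f) = ρ f' := by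
      intro f f' h
      have h1 : f' = trEquiv R hR g f := Subtype.ext h
      rw [h1, hρ, hρ, ← sgEquiv_apply hR hπ hk hg]
      exact IsFractionRing.algEquivOfAlgEquiv_algebraMap _ _
    exact ⟨γ, ⟨g, hg, hγ⟩, hγ⟩

include hR hπ hk in
theorem ka_aux2 [IsDomain A] : ∃ (K : Type) (_ : Field K) (_ : Algebra ℂ K)
    (Γ : Subgroup (K ≃ₐ[ℂ] K)) (ρ : R →ₐ[ℂ] K),
      (∀ f : R, ρ f = 0 ↔ ∀ g ∈ N, (f : H → ℂ) (g * a) = 0) ∧ (∀ x : K, x ∈ frac ρ.range) ∧
      (∀ γ ∈ Γ, ∃ g ∈ N, ∀ f f' : R, (f' : H → ℂ) = tr g f → γ (ρ f) = ρ f') ∧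
      ∀ g ∈ N, ∃ γ ∈ Γ, ∀ f f' : R, (f' : H → ℂ) = tr g f → γ (ρ f) = ρ f' :=
  ⟨FractionRing A, inferInstance, inferInstance, ka_aux hR hπ hk (FractionRing A)⟩

end aux

theorem t_KA : Pool.Agent.Y377.IR.G_KA := by
  intro H _ R N hR hD a
  have hprime : (van R N a).IsPrime := by
    constructor
    · rw [Ideal.ne_top_iff_one]
      intro h
      have := h 1 N.one_mem
      change (1 : ℂ) = 0 at this
      exact one_ne_zero this
    · intro f f' h
      exact hD a f f.2 f' f'.2 fun g hg => h g hg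
  have hs : Function.Surjective (Ideal.Quotient.mkₐ ℂ (van R N a)) :=
    Ideal.Quotient.mkₐ_surjective ℂ _
  have hk : ∀ f : R, Ideal.Quotient.mkₐ ℂ (van R N a) f = 0 ↔ f ∈ van R N a := fun f => by
    rw [Ideal.Quotient.mkₐ_eq_mk]
    exact Ideal.Quotient.eq_zero_iff_mem
  exact ka_aux2 (A := R ⧸ van R N a) hR hs hk

end Pool.Agent.Y529.IR
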