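import Pool.Agent.Y377.IR.Stm

/-!
# Simplicity after the restriction to a coset (helper529)
-/

set_option autoImplicit false

namespace Pool.Agent.Y529.IR.B

open Pool.Agent.Y377.EL Pool.Agent.Y377.IL Pool.Agent.Y377.IR

section tr

variable {H : Type} [Group H]

theorem tr_tr (a b : H) (f : H → ℂ) : tr a (tr b f) = tr (b * a) f := by
  funext h
  change f (b * (a * h)) = f (b * a * h)
  rw [mul_assoc]

theorem tr_one' (f : H → ℂ) : tr 1 f = f := by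
  funext h
  change f (1 * h) = f h
  rw [one_mul]

theorem tr_prod {ι : Type} (s : Finset ι) (F : ι → H → ℂ) (u : H) :
    tr u (∏ i ∈ s, F i) = ∏ i ∈ s, tr u (F i) := by
  funext h
  change (∏ i ∈ s, F i) (u * h) = (∏ i ∈ s, tr u (F i)) h
  rw [Finset.prod_apply, Finset.prod_apply]
  rfl

/-- a product of functions which vanishes on a coset has a factor which vanishes on it -/
theorem factor {R : Subalgebra ℂ (H → ℂ)} {N : Subgroup H} (hD : DomOn N R) (a : H) {ι : Type}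
    (s : Finset ι) (F : ι → H → ℂ) (hF : ∀ i ∈ s, F i ∈ R)
    (h0 : ∀ g ∈ N, (∏ i ∈ s, F i) (g * a) = 0) : ∃ i ∈ s, ∀ g ∈ N, F i (g * a) = 0 := by
  classical
  induction s using Finset.induction_on with
  | empty =>
    have := h0 1 N.one_mem
    rw [Finset.prod_empty] at this
    exact absurd this one_ne_zero
  | insert i s his ih =>
    have h1 : ∀ g ∈ N, F i (g * a) * (∏ j ∈ s, F j) (g * a) = 0 := by
      intro g hg
      have := h0 g hg
      rw [Finset.prod_insert his] at this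
      exact this
    rcases hD a (F i) (hF i (Finset.mem_insert_self i s)) (∏ j ∈ s, F j)
      (R.prod_mem fun j hj => hF j (Finset.mem_insert_of_mem hj)) h1 with h | h
    · exact ⟨i, Finset.mem_insert_self i s, h⟩
    · obtain ⟨j, hj, h'⟩ := ih (fun j hj => hF j (Finset.mem_insert_of_mem hj)) h
      exact ⟨j, Finset.mem_insert_of_mem hj, h'⟩

end tr

theorem t_KB : Pool.Agent.Y377.IR.G_KB := by
  classical
  intro H _ R N hR hNn hNf hD a K _ _ Γ ρ h1 h2 h3 R' hle hR' hs' S hS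
  intro I hIS hIΓ hIne
  by_contra hone
  -- the ideal of functions
  let I' : Set (H → ℂ) := {f | ∃ hf : f ∈ R', ρ ⟨f, hle hf⟩ ∈ I}
  have hmem : ∀ f, f ∈ I' ↔ ∃ hf : f ∈ R', ρ ⟨f, hle hf⟩ ∈ I := fun f => Iff.rfl
  have hIR : ∀ f ∈ I', f ∈ R' := fun f hf => hf.1
  have hadd : ∀ f ∈ I', ∀ f' ∈ I', f + f' ∈ I' := by
    rintro f ⟨hf, hf1⟩ f' ⟨hf', hf1'⟩
    refine ⟨R'.add_mem hf hf', ?_⟩
    have e : (⟨f + f', hle (R'.add_mem hf hf')⟩ : R) = ⟨f, hle hf⟩ + ⟨f', hle hf'⟩ := rfl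
    rw [e, map_add]
    exact I.add_mem hf1 hf1'
  have hzero : (0 : H → ℂ) ∈ I' := by
    refine ⟨R'.zero_mem, ?_⟩
    have e : (⟨0, hle R'.zero_mem⟩ : R) = 0 := rfl
    rw [e, map_zero]
    exact I.zero_mem
  have hmul : ∀ r ∈ R', ∀ f ∈ I', r * f ∈ I' := by
    rintro r hr f ⟨hf, hf1⟩
    refine ⟨R'.mul_mem hr hf, ?_⟩
    have e : (⟨r * f, hle (R'.mul_mem hr hf)⟩ : R) = ⟨r, hle hr⟩ * ⟨f, hle hf⟩ := rfl
    rw [e, map_mul]
    have hr' : ρ ⟨r, hle hr⟩ ∈ S := (hS _).2 ⟨⟨r, hle hr⟩, hr, rfl⟩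
    exact I.smul_mem (⟨_, hr'⟩ : S) hf1
  have htr : ∀ g ∈ N, ∀ f ∈ I', tr g f ∈ I' := by
    rintro g hg f ⟨hf, hf1⟩
    refine ⟨hR' g f hf, ?_⟩
    obtain ⟨γ, hγ, h⟩ := h3 g hg
    rw [← h ⟨f, hle hf⟩ ⟨tr g f, hle (hR' g f hf)⟩ rfl]
    exact hIΓ γ hγ _ hf1
  -- the invariant ideal
  have hQ : ∀ F ∈ R', (∀ u : H, tr u F ∈ I') → F = 0 := by
    intro F hF hFu
    by_contra hF0
    let Q : Submodule R' (H → ℂ) :=
      { carrier := {f | f ∈ R' ∧ ∀ u : H, tr u f ∈ I'}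
        add_mem' := by
          rintro f f' ⟨hf, hf1⟩ ⟨hf', hf1'⟩
          exact ⟨R'.add_mem hf hf', fun u => hadd _ (hf1 u) _ (hf1' u)⟩
        zero_mem' := ⟨R'.zero_mem, fun u => hzero⟩
        smul_mem' := by
          rintro c f ⟨hf, hf1⟩
          exact ⟨R'.mul_mem c.2 hf, fun u => hmul _ (hR' u c c.2) _ (hf1 u)⟩ }
    have h1Q : (1 : H → ℂ) ∈ Q := by
      refine hs' Q (fun f hf => hf.1) ?_ ⟨F, ⟨hF, hFu⟩, hF0⟩
      rintro g f ⟨hf, hf1⟩
      refine ⟨hR' g f hf, fun u => ?_⟩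
      rw [tr_tr]
      exact hf1 _
    obtain ⟨hf, hf1⟩ := h1Q.2 1
    apply hone
    have e : (⟨tr (1 : H) (1 : H → ℂ), hle hf⟩ : R) = 1 := rfl
    rw [e, map_one] at hf1
    exact hf1
  -- all elements of the ideal vanish on one translate of the coset
  have hfin : Finite (H ⧸ N) := Subgroup.finite_quotient_of_finiteIndex
  have := Fintype.ofFinite (H ⧸ N)
  obtain ⟨u, hu⟩ : ∃ u : H, ∀ f ∈ I', ∀ g ∈ N, tr u f (g * a) = 0 := by
    by_contra hcon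
    push Not at hcon
    choose f hf g hg hfg using fun q : H ⧸ N => hcon (q.out)⁻¹
    have h4 : ∏ q, tr (q.out)⁻¹ (f q) = 0 := by
      refine hQ _ (R'.prod_mem fun q _ => hR' _ _ (hIR _ (hf q))) fun u => ?_
      obtain ⟨n, hn⟩ := QuotientGroup.mk_out_eq_mul N u
      have e1 : u = ((u : H ⧸ N)).out * ((n : H))⁻¹ := by rw [hn, mul_inv_cancel_right]
      have e2 : tr ((u : H ⧸ N)).out (∏ q, tr (q.out)⁻¹ (f q)) ∈ I' := by
        rw [tr_prod, ← Finset.mul_prod_erase Finset.univ _ (Finset.mem_univ (u : H ⧸ N)), mul_comm]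
        refine hmul _ (R'.prod_mem fun q _ => hR' _ _ (hR' _ _ (hIR _ (hf q)))) _ ?_
        rw [tr_tr, inv_mul_cancel, tr_one']
        exact hf _
      rw [e1, ← tr_tr]
      exact htr _ (N.inv_mem n.2) _ e2
    obtain ⟨q, -, hq⟩ := factor hD a Finset.univ (fun q : H ⧸ N => tr (q.out)⁻¹ (f q))
      (fun q _ => hle (hR' _ _ (hIR _ (hf q)))) (fun g _ => by rw [h4]; rfl)
    exact hfg q (hq (g q) (hg q))
  -- functions which vanish on the coset
  have hJI : ∀ f ∈ R', (∀ g ∈ N, f (g * a) = 0) → f ∈ I' := by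
    intro f hf hf0
    refine ⟨hf, ?_⟩
    rw [(h1 ⟨f, hle hf⟩).2 hf0]
    exact I.zero_mem
  have hpow : ∀ k : ℕ, ∀ f ∈ I', ∀ g ∈ N, tr (u ^ (k + 1)) f (g * a) = 0 := by
    intro k
    induction k with
    | zero => intro f hf; rw [zero_add, pow_one]; exact hu f hf
    | succ k ih =>
      intro f hf
      have h5 : tr (u ^ (k + 1)) f ∈ I' := hJI _ (hR' _ _ (hIR f hf)) (ih f hf)
      have h6 := hu _ h5
      rw [tr_tr, ← pow_succ] at h6
      exact h6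
  obtain ⟨x, hxI, hx0⟩ := hIne
  obtain ⟨f, hfR, hfx⟩ := (hS x).1 (hIS x hxI)
  have hfI : (f : H → ℂ) ∈ I' := by
    refine ⟨hfR, ?_⟩
    change ρ f ∈ I
    rw [hfx]
    exact hxI
  obtain ⟨m, hm, hmN⟩ : ∃ m : ℕ, 0 < m ∧ u ^ m ∈ N := by
    refine ⟨N.index, Nat.pos_of_ne_zero hNf.index_ne_zero, ?_⟩
    exact N.pow_index_mem u
  obtain ⟨k, rfl⟩ : ∃ k, m = k + 1 := ⟨m - 1, by omega⟩
  apply hx0
  rw [← hfx, h1]
  intro g hg
  have h7 := hpow k f hfI ((u ^ (k + 1))⁻¹ * g) (N.mul_mem (N.inv_mem hmN) hg)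
  change (f : H → ℂ) (u ^ (k + 1) * ((u ^ (k + 1))⁻¹ * g * a)) = 0 at h7
  have e : u ^ (k + 1) * ((u ^ (k + 1))⁻¹ * g * a) = g * a := by
    rw [mul_assoc, mul_inv_cancel_left]
  rwa [e] at h7

end Pool.Agent.Y529.IR.B
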