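import Pool.Agent.Y377.IR.Stm

/-!
# The invariants after the restriction to a coset (helper529)
-/

set_option autoImplicit false

namespace Pool.Agent.Y529.IR

open Pool.Agent.Y377.EL Pool.Agent.Y377.IL Pool.Agent.Y377.IR

theorem t_KC : Pool.Agent.Y377.IR.G_KC := by
  intro H _ R N hR a K _ _ Γ ρ h1 h2 h3 hfr hs x hx
  -- the range is stable
  have hst : ∀ γ ∈ Γ, ∀ s ∈ ρ.range, γ s ∈ ρ.range := by
    rintro γ hγ _ ⟨f, rfl⟩
    obtain ⟨g, hg, h⟩ := h2 γ hγ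
    exact ⟨⟨tr g f, hR g f f.2⟩, (h f ⟨tr g f, hR g f f.2⟩ rfl).symm⟩
  let I : Submodule ρ.range K :=
    { carrier := {s | s ∈ ρ.range ∧ s * x ∈ ρ.range}
      add_mem' := by
        rintro s t ⟨hs, hs'⟩ ⟨ht, ht'⟩
        refine ⟨ρ.range.add_mem hs ht, ?_⟩
        rw [add_mul]
        exact ρ.range.add_mem hs' ht'
      zero_mem' := ⟨ρ.range.zero_mem, by rw [zero_mul]; exact ρ.range.zero_mem⟩
      smul_mem' := by
        rintro c s ⟨hs, hs'⟩
        refine ⟨ρ.range.mul_mem c.2 hs, ?_⟩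
        change (c : K) * s * x ∈ ρ.range
        rw [mul_assoc]
        exact ρ.range.mul_mem c.2 hs' }
  have h1I : (1 : K) ∈ I := by
    refine hs I (fun s hs => hs.1) ?_ ?_
    · rintro γ hγ s ⟨hs, hs'⟩
      refine ⟨hst γ hγ s hs, ?_⟩
      have e : γ s * x = γ (s * x) := by rw [map_mul, hx γ hγ]
      rw [e]
      exact hst γ hγ _ hs'
    · obtain ⟨r, hr, hr0, hrx⟩ := hfr x
      exact ⟨r, ⟨hr, hrx⟩, hr0⟩
  obtain ⟨f, hf⟩ : x ∈ ρ.range := by
    have := h1I.2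
    rwa [one_mul] at this
  -- the function is constant on the coset
  have hc : ∀ g ∈ N, (f : H → ℂ) (g * a) = (f : H → ℂ) a := by
    intro g hg
    obtain ⟨γ, hγ, h⟩ := h3 g hg
    have e1 := h f ⟨tr g f, hR g f f.2⟩ rfl
    have hf' : ρ f = x := hf
    rw [hf', hx γ hγ, ← hf'] at e1
    have e2 : ρ (⟨tr g f, hR g f f.2⟩ - f) = 0 := by rw [map_sub, ← e1, sub_self]
    have e3 := (h1 _).1 e2 1 N.one_mem
    change (f : H → ℂ) (g * (1 * a)) - (f : H → ℂ) (1 * a) = 0 at e3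
    rw [one_mul] at e3
    exact sub_eq_zero.1 e3
  refine ⟨(f : H → ℂ) a, ?_⟩
  have e4 : ρ (f - algebraMap ℂ R ((f : H → ℂ) a)) = 0 := by
    refine (h1 _).2 fun g hg => ?_
    change (f : H → ℂ) (g * a) - (f : H → ℂ) a = 0
    rw [hc g hg, sub_self]
  rw [map_sub, sub_eq_zero, AlgHom.commutes] at e4
  rw [← e4]
  exact hf.symm

end Pool.Agent.Y529.IR
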